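import Pool.Agent.Zk72.Pen.Core
import Pool.Agent.R416.CV.Asym

/-!
Translates of a choice of residue classes by combinations of given directions: asymptotic form.
-/

set_option autoImplicit false

namespace Pool.Agent.Zk72.Pen

open Finset Filter Topology
open Pool.Agent.H170R2.PC

theorem covered_eq {α : ℝ} {N : ℕ} (c : (p : ℕ) → ZMod p) :
    coveredCount α N c = (cov (PD α N) c N).card := by
  classical
  rw [coveredCount_eq]
  congr 1
  ext n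
  rw [Cov, cov, mem_filter, mem_filter, mem_Icc, mem_Ioc]
  constructor
  · rintro ⟨⟨h1, h2⟩, h⟩
    exact ⟨⟨by omega, by omega⟩, h⟩
  · rintro ⟨⟨h1, h2⟩, h⟩
    exact ⟨⟨by omega, by omega⟩, h⟩

theorem PD_props {α : ℝ} {N : ℕ} : ∀ p ∈ PD α N, p.Prime ∧ (N : ℝ) ^ α ≤ p ∧
    (p : ℝ) ≤ 2 * (N : ℝ) ^ α := fun p hp => by
  obtain ⟨h1, h2, h3⟩ := mem_PD.1 hp
  exact ⟨h1, h2, h3.le⟩

theorem main {α : ℝ} (h0 : 1 / 2 ≤ α) (h1 : α < 1) : ∃ N₀ : ℕ, ∀ N ≥ N₀, ∀ (k : ℕ)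
    (b : (p : ℕ) → ZMod p) (a : Fin k → (p : ℕ) → ZMod p) (S M : ℕ), 1 ≤ M →
      (∀ σ : Fin k → ℤ, σ ≠ 0 → (∀ i, |σ i| < S) → ∀ h : ℤ, |h| < N →
        ((PD α N).filter fun p => (h : ZMod p) = lin a σ p).card ≤ M) →
      ∀ Y : ℝ, 0 ≤ Y →
      (((box k S).filter fun s => (coveredCount α N (pen b a s) : ℝ) ≤ Y).card : ℝ) ≤
        320 * 2 ^ k * (Y / N) * ((N : ℝ) ^ (2 * α - 1) + M * (S : ℝ) ^ k * Real.log N) := by
  have hα : 0 < α := by linarith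
  have ev1 := Pool.Agent.R416.CV.ev_primes hα h1
  have ev2 := ev_const 4 (show 0 < 1 - α by linarith)
  obtain ⟨N₀, hN₀⟩ := eventually_atTop.1 ((ev1.and ev2).and (eventually_ge_atTop 1))
  refine ⟨N₀, fun N hN k b a S M hM1 hM Y hY => ?_⟩
  obtain ⟨⟨hp, h4⟩, hN1⟩ := hN₀ N hN
  have hN0 : (0 : ℝ) < N := by exact_mod_cast hN1
  have hN1' : (1 : ℝ) ≤ N := by exact_mod_cast hN1
  set x : ℝ := (N : ℝ) ^ α with hxdef
  have hx : 0 < x := Real.rpow_pos_of_pos hN0 _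
  have hN4 : 4 * x ≤ N := by
    calc 4 * x ≤ (N : ℝ) ^ (1 - α) * (N : ℝ) ^ α := by gcongr
      _ = N := by rw [← Real.rpow_add hN0, sub_add_cancel, Real.rpow_one]
  have hNx : (N : ℝ) ≤ x ^ 2 := by
    calc (N : ℝ) = (N : ℝ) ^ (1 : ℝ) := (Real.rpow_one _).symm
      _ ≤ (N : ℝ) ^ (α * (2 : ℕ)) := Real.rpow_le_rpow_of_exponent_le hN1' (by push_cast; linarith)
      _ = x ^ 2 := by rw [Real.rpow_mul hN0.le, Real.rpow_natCast]
  set K : ℝ := ((PD α N).card : ℝ) with hK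
  have hK0 : 0 < K := by
    have hKn : 0 ≤ K := Nat.cast_nonneg _
    rcases hKn.eq_or_lt with h | h
    · rw [← h, zero_mul, mul_zero] at hp
      linarith
    · exact h
  have h := bad (Q := PD α N) (b := b) (a := a) (S := S) (N := N) (M := M) (x := x) (Y := Y) hx
    PD_props hN4 hNx hM
    (B := (box k S).filter fun s => (coveredCount α N (pen b a s) : ℝ) ≤ Y)
    (filter_subset _ _) hY (by
      intro s hs
      rw [← covered_eq]
      exact (mem_filter.1 hs).2)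
  rw [← hK] at h
  set B := (box k S).filter fun s => (coveredCount α N (pen b a s) : ℝ) ≤ Y with hB
  have e0 : (N : ℝ) ^ (2 * α - 1) = x ^ 2 / N := by
    rw [Real.rpow_sub hN0, Real.rpow_one, hxdef, ← Real.rpow_natCast, ← Real.rpow_mul hN0.le]
    congr 2
    push_cast
    ring
  have hNx1 : 1 ≤ (N : ℝ) / x := by rw [le_div_iff₀ hx]; linarith
  have hM1' : (1 : ℝ) ≤ M := by exact_mod_cast hM1
  have h2k : (1 : ℝ) ≤ 2 ^ k := one_le_pow₀ (by norm_num)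
  have hSk : (0 : ℝ) ≤ (S : ℝ) ^ k := by positivity
  have h2M : (1 : ℝ) ≤ 2 ^ k * M := by nlinarith
  have h2 : (S : ℝ) ^ k * (K * (N / x + 1)) + K ^ 2 +
      K * (M * ((2 * S : ℝ) ^ k * (2 * N / x + 1))) ≤
      K ^ 2 + 5 * 2 ^ k * M * (S : ℝ) ^ k * K * (N / x) := by
    have e1 : (2 * N : ℝ) / x + 1 ≤ 3 * (N / x) := by
      have : (2 * N : ℝ) / x = 2 * (N / x) := by ring
      linarith
    have e2 : (S : ℝ) ^ k * (K * (N / x + 1)) ≤ 2 * 2 ^ k * M * (S : ℝ) ^ k * K * (N / x) := by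
      calc (S : ℝ) ^ k * (K * (N / x + 1)) ≤ (S : ℝ) ^ k * (K * (N / x + N / x)) := by gcongr
        _ = 1 * (2 * (S : ℝ) ^ k * K * (N / x)) := by ring
        _ ≤ (2 ^ k * M) * (2 * (S : ℝ) ^ k * K * (N / x)) := by gcongr
        _ = _ := by ring
    have e3 : K * (M * ((2 * S : ℝ) ^ k * (2 * N / x + 1))) ≤
        3 * 2 ^ k * M * (S : ℝ) ^ k * K * (N / x) := by
      calc K * (M * ((2 * S : ℝ) ^ k * (2 * N / x + 1)))
          ≤ K * (M * ((2 * S : ℝ) ^ k * (3 * (N / x)))) := by gcongr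
        _ = _ := by rw [mul_pow]; ring
    linarith
  have h3 : (B.card : ℝ) * (K * (N / (4 * x))) ^ 2 ≤
      Y * (K ^ 2 + 5 * 2 ^ k * M * (S : ℝ) ^ k * K * (N / x)) := h.trans (by gcongr)
  have h5 : (0 : ℝ) < (K * (N / (4 * x))) ^ 2 := by positivity
  rw [← div_le_div_iff_of_pos_right h5, mul_div_assoc, div_self h5.ne', mul_one] at h3
  have h6 : x / K ≤ 4 * Real.log N := by
    rw [div_le_iff₀ hK0]
    linarith
  have hlog : 0 ≤ Real.log N := Real.log_nonneg hN1'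
  calc (B.card : ℝ) ≤ Y * (K ^ 2 + 5 * 2 ^ k * M * (S : ℝ) ^ k * K * (N / x)) /
        (K * (N / (4 * x))) ^ 2 := h3
    _ = 16 * (Y / N) * (x ^ 2 / N + 5 * 2 ^ k * M * (S : ℝ) ^ k * (x / K)) := by
        field_simp
        ring
    _ ≤ 16 * (Y / N) * (x ^ 2 / N + 5 * 2 ^ k * M * (S : ℝ) ^ k * (4 * Real.log N)) := by gcongr
    _ ≤ 16 * (Y / N) * (20 * 2 ^ k * (x ^ 2 / N) + 20 * 2 ^ k * M * (S : ℝ) ^ k * Real.log N) := by
        have e4 : x ^ 2 / N ≤ 20 * 2 ^ k * (x ^ 2 / N) := by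
          have e5 : (0 : ℝ) ≤ x ^ 2 / N := by positivity
          have e6 : (1 : ℝ) ≤ 20 * 2 ^ k := by linarith
          calc x ^ 2 / N = 1 * (x ^ 2 / N) := (one_mul _).symm
            _ ≤ _ := by gcongr
        have e7 : (5 * 2 ^ k * M * (S : ℝ) ^ k * (4 * Real.log N)) =
          20 * 2 ^ k * M * (S : ℝ) ^ k * Real.log N := by ring
        rw [e7]
        gcongr
    _ = _ := by rw [e0]; ring

end Pool.Agent.Zk72.Pen
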