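import Pool.Agent.Zk72.Dil.Core

/-!
Residue classes `b(p) + s₁ a₁(p) + … + s_k a_k(p)` modulo the primes of a finite set: the second
moment over the parameters `s`.
-/

set_option autoImplicit false

namespace Pool.Agent.Zk72.Pen

open Finset
open Pool.Agent.Zk72.Dil (window_le cl cl_modEq cl_card_ge On)

variable {k : ℕ}

/-- the choice `b + s₁ a₁ + … + s_k a_k` -/
def pen (b : (p : ℕ) → ZMod p) (a : Fin k → (p : ℕ) → ZMod p) (s : Fin k → ℕ) :
    (p : ℕ) → ZMod p := fun p => b p + ∑ i, (s i : ZMod p) * a i p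

/-- the parameters -/
def box (k S : ℕ) : Finset (Fin k → ℕ) := Fintype.piFinset fun _ => range S

theorem mem_box {S : ℕ} {s : Fin k → ℕ} : s ∈ box k S ↔ ∀ i, s i < S := by
  simp [box]

theorem card_box (k S : ℕ) : (box k S).card = S ^ k := by
  simp [box]

/-- the covered elements of the window -/
def cov (Q : Finset ℕ) (c : (p : ℕ) → ZMod p) (N : ℕ) : Finset ℕ :=
  (Ioc 0 (0 + N)).filter fun n => ∃ p ∈ Q, (n : ZMod p) = c p

/-- the number of the primes `p ∈ Q` with `n ≡ c(p)` -/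
def R (Q : Finset ℕ) (c : (p : ℕ) → ZMod p) (n : ℕ) : ℕ := (Q.filter fun p => (n : ZMod p) = c p).card

theorem on_iff (c : (p : ℕ) → ZMod p) (n p : ℕ) : On c 1 (1 * n) p ↔ (n : ZMod p) = c p := by
  unfold On; simp

theorem sum_R (Q : Finset ℕ) (c : (p : ℕ) → ZMod p) (N : ℕ) :
    ∑ n ∈ Ioc 0 (0 + N), R Q c n = ∑ p ∈ Q, (cl c 0 N 1 1 p).card := by
  unfold R cl
  simp_rw [card_filter, on_iff]
  rw [sum_comm]

theorem first {Q : Finset ℕ} {c : (p : ℕ) → ZMod p} {N : ℕ} {x : ℝ} (hx : 0 < x)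
    (hQ : ∀ p ∈ Q, p.Prime ∧ x ≤ p ∧ (p : ℝ) ≤ 2 * x) (hN : 4 * x ≤ N) :
    (Q.card : ℝ) * (N / (4 * x)) ≤ ((∑ n ∈ Ioc 0 (0 + N), R Q c n : ℕ) : ℝ) := by
  rw [sum_R]
  push_cast
  rw [← nsmul_eq_mul]
  refine card_nsmul_le_sum Q _ _ fun p hp => ?_
  obtain ⟨hpp, hp1, hp2⟩ := hQ p hp
  have h1 := cl_card_ge (a := c) (u := 0) (N := N) (s := 1) (t := 1) hpp (Nat.Prime.not_dvd_one hpp)
  have hp0 : (0 : ℝ) < p := by exact_mod_cast hpp.pos
  have h5 : (N : ℝ) / (2 * x) ≤ N / p :=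
    div_le_div_of_nonneg_left (Nat.cast_nonneg _) hp0 hp2
  have h6 : 1 ≤ (N : ℝ) / (4 * x) := by rwa [le_div_iff₀ (by positivity), one_mul]
  have e1 : (N : ℝ) / (2 * x) = 2 * (N / (4 * x)) := by field_simp; ring
  linarith

/-! ### pairs of primes -/

/-- the linear form with the coefficients `σ` -/
def lin (a : Fin k → (p : ℕ) → ZMod p) (σ : Fin k → ℤ) (p : ℕ) : ZMod p :=
  ∑ i, (σ i : ZMod p) * a i p

/-- the points in the classes of `p` and of `q` -/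
def Tp (b : (p : ℕ) → ZMod p) (a : Fin k → (p : ℕ) → ZMod p) (S N p q : ℕ) :
    Finset ((Fin k → ℕ) × ℕ) :=
  (box k S ×ˢ Ioc 0 (0 + N)).filter fun v =>
    (v.2 : ZMod p) = pen b a v.1 p ∧ (v.2 : ZMod q) = pen b a v.1 q

/-- the possible differences -/
noncomputable def dbox (k S N : ℕ) : Finset ((Fin k → ℤ) × ℤ) :=
  ((Fintype.piFinset fun _ => Ioo (-(S : ℤ)) S) ×ˢ Ioo (-(N : ℤ)) N).filter fun v => v.1 ≠ 0

/-- the differences of points in the classes of `p` and of `q` -/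
noncomputable def Dp (a : Fin k → (p : ℕ) → ZMod p) (S N p q : ℕ) : Finset ((Fin k → ℤ) × ℤ) :=
  (dbox k S N).filter fun v =>
    (v.2 : ZMod p) = lin a v.1 p ∧ (v.2 : ZMod q) = lin a v.1 q

theorem pen_sub {b : (p : ℕ) → ZMod p} {a : Fin k → (p : ℕ) → ZMod p} {s s' : Fin k → ℕ}
    {n n' p : ℕ} (h : (n : ZMod p) = pen b a s p) (h' : (n' : ZMod p) = pen b a s' p) :
    (((n : ℤ) - n' : ℤ) : ZMod p) = lin a (fun i => (s i : ℤ) - s' i) p := by
  push_cast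
  rw [h, h', pen, pen, lin]
  simp only [Int.cast_sub, Int.cast_natCast, sub_mul, sum_sub_distrib]
  ring

theorem Tp_card {b : (p : ℕ) → ZMod p} {a : Fin k → (p : ℕ) → ZMod p} {S N p q : ℕ}
    (hp : p.Prime) (hq : q.Prime) (hpq : p ≠ q) (hN : N ≤ p * q) :
    (Tp b a S N p q).card ≤ 1 + (Dp a S N p q).card := by
  rcases (Tp b a S N p q).eq_empty_or_nonempty with h | ⟨v₀, hv₀⟩
  · rw [h]; simp
  have hmem : ∀ v ∈ Tp b a S N p q, (∀ i, v.1 i < S) ∧ 0 < v.2 ∧ v.2 ≤ N ∧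
      (v.2 : ZMod p) = pen b a v.1 p ∧ (v.2 : ZMod q) = pen b a v.1 q := by
    intro v hv
    rw [Tp, mem_filter, mem_product, mem_box, mem_Ioc] at hv
    exact ⟨hv.1.1, hv.1.2.1, by have := hv.1.2.2; omega, hv.2⟩
  obtain ⟨a1, a2, a3, a4, a5⟩ := hmem v₀ hv₀
  rw [← card_erase_add_one hv₀, add_comm]
  refine Nat.add_le_add_left ?_ 1
  refine card_le_card_of_injOn
    (fun v => ((fun i => (v.1 i : ℤ) - v₀.1 i, (v.2 : ℤ) - v₀.2) : (Fin k → ℤ) × ℤ)) ?_ ?_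
  · intro v hv
    have hv' := mem_erase.1 (mem_coe.1 hv)
    obtain ⟨b1, b2, b3, b4, b5⟩ := hmem v hv'.2
    rw [mem_coe, Dp, mem_filter, dbox, mem_filter, mem_product, Fintype.mem_piFinset, mem_Ioo]
    refine ⟨⟨⟨fun i => ?_, ?_, ?_⟩, fun h0 => ?_⟩, pen_sub b4 a4, pen_sub b5 a5⟩
    · rw [mem_Ioo]
      have := b1 i
      have := a1 i
      constructor <;> simp only <;> omega
    · simp only; omega
    · simp only; omega
    · have e1 : v.1 = v₀.1 := by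
        funext i
        have := congrFun h0 i
        simp only [Pi.zero_apply] at this
        omega
      have h1 : v.2 ≡ v₀.2 [MOD p] := by
        rw [← ZMod.natCast_eq_natCast_iff, b4, a4, e1]
      have h2 : v.2 ≡ v₀.2 [MOD q] := by
        rw [← ZMod.natCast_eq_natCast_iff, b5, a5, e1]
      have h3 : v.2 ≡ v₀.2 [MOD p * q] :=
        (Nat.modEq_and_modEq_iff_modEq_mul ((Nat.coprime_primes hp hq).2 hpq)).1 ⟨h1, h2⟩
      have h4 : v.2 = v₀.2 := by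
        have h5 : v.2 - 1 ≡ v₀.2 - 1 [MOD p * q] := by
          have e2 : v.2 = (v.2 - 1) + 1 := by omega
          have e3 : v₀.2 = (v₀.2 - 1) + 1 := by omega
          rw [e2, e3] at h3
          exact Nat.ModEq.add_right_cancel' _ h3
        have h6 := Nat.ModEq.eq_of_lt_of_lt h5 (by omega) (by omega)
        omega
      exact hv'.1 (Prod.ext e1 h4)
  · intro v _ v' _ h
    simp only [Prod.mk.injEq] at h
    refine Prod.ext (funext fun i => ?_) ?_
    · have := congrFun h.1 i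
      omega
    · omega

/-- the differences in the class of `p` -/
noncomputable def Ep (a : Fin k → (p : ℕ) → ZMod p) (S N p : ℕ) : Finset ((Fin k → ℤ) × ℤ) :=
  (dbox k S N).filter fun v => (v.2 : ZMod p) = lin a v.1 p

theorem Ep_card {a : Fin k → (p : ℕ) → ZMod p} {S N p : ℕ} {x : ℝ} (hx : 0 < x) (hp : x ≤ p) :
    ((Ep a S N p).card : ℝ) ≤ (2 * S : ℝ) ^ k * (2 * N / x + 1) := by
  have h1 : (Ep a S N p) ⊆ (Fintype.piFinset fun _ : Fin k => Ioo (-(S : ℤ)) S).biUnion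
      fun σ => (Ioo (-(N : ℤ)) N).image (fun h => (σ, h)) |>.filter
        fun v => (v.2 : ZMod p) = lin a v.1 p := by
    intro v hv
    rw [Ep, mem_filter, dbox, mem_filter, mem_product] at hv
    rw [mem_biUnion]
    exact ⟨v.1, hv.1.1.1, mem_filter.2 ⟨mem_image.2 ⟨v.2, hv.1.1.2, rfl⟩, hv.2⟩⟩
  have h2 : ∀ σ : Fin k → ℤ, ((((Ioo (-(N : ℤ)) N).image (fun h => (σ, h)) |>.filter
        fun v => (v.2 : ZMod p) = lin a v.1 p).card : ℕ) : ℝ) ≤ 2 * N / x + 1 := by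
    intro σ
    set A : Finset ℕ := (Ioc 0 (0 + 2 * N)).filter fun m =>
      (((m : ℤ) - N : ℤ) : ZMod p) = lin a σ p with hA
    have h3 := window_le (u := 0) (N := 2 * N) (r := p) (A := A) (filter_subset _ _) (by
      intro n hn n' hn'
      rw [hA, mem_filter] at hn hn'
      have := hn.2.trans hn'.2.symm
      push_cast at this
      rw [← ZMod.natCast_eq_natCast_iff]
      exact sub_left_injective this)
    have h4 : ((Ioo (-(N : ℤ)) N).image (fun h => (σ, h)) |>.filter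
        fun v => (v.2 : ZMod p) = lin a v.1 p).card ≤ A.card := by
      refine card_le_card_of_injOn (fun v => (v.2 + N).toNat) ?_ ?_
      · intro v hv
        rw [mem_coe, mem_filter, mem_image] at hv
        obtain ⟨⟨h, hh, rfl⟩, h5⟩ := hv
        rw [mem_Ioo] at hh
        rw [mem_coe, hA, mem_filter, mem_Ioc]
        simp only
        refine ⟨⟨by omega, by omega⟩, ?_⟩
        have e : (((h + N).toNat : ℕ) : ℤ) = h + N := Int.toNat_of_nonneg (by omega)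
        rw [e, add_sub_cancel_right]
        exact h5
      · intro v hv v' hv' he
        rw [mem_coe, mem_filter, mem_image] at hv hv'
        obtain ⟨⟨h, hh, rfl⟩, -⟩ := hv
        obtain ⟨⟨h', hh', rfl⟩, -⟩ := hv'
        rw [mem_Ioo] at hh hh'
        simp only at he
        have : h = h' := by omega
        rw [this]
    have h5 : (A.card : ℝ) ≤ 2 * N / p + 1 := by
      have := h3
      push_cast at this
      exact this
    have h6 : (2 * N : ℝ) / p ≤ 2 * N / x :=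
      div_le_div_of_nonneg_left (by positivity) hx hp
    calc ((((Ioo (-(N : ℤ)) N).image (fun h => (σ, h)) |>.filter
        fun v => (v.2 : ZMod p) = lin a v.1 p).card : ℕ) : ℝ) ≤ (A.card : ℝ) := by
          exact_mod_cast h4
      _ ≤ _ := by linarith
  have hc : (((Fintype.piFinset fun _ : Fin k => Ioo (-(S : ℤ)) S).card : ℕ) : ℝ) ≤
      (2 * S : ℝ) ^ k := by
    rw [Fintype.card_piFinset, prod_const, Int.card_Ioo, card_univ, Fintype.card_fin]
    push_cast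
    refine pow_le_pow_left₀ (Nat.cast_nonneg _) ?_ k
    have : ((S : ℤ) - -(S : ℤ) - 1).toNat ≤ 2 * S := by omega
    exact_mod_cast this
  calc ((Ep a S N p).card : ℝ) ≤ ((∑ σ ∈ (Fintype.piFinset fun _ : Fin k => Ioo (-(S : ℤ)) S),
      ((Ioo (-(N : ℤ)) N).image (fun h => (σ, h)) |>.filter
        fun v => (v.2 : ZMod p) = lin a v.1 p).card : ℕ) : ℝ) := by
        exact_mod_cast (card_le_card h1).trans card_biUnion_le
    _ ≤ ∑ σ ∈ (Fintype.piFinset fun _ : Fin k => Ioo (-(S : ℤ)) S), (2 * N / x + 1 : ℝ) := by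
        push_cast
        exact sum_le_sum fun σ _ => h2 σ
    _ = (((Fintype.piFinset fun _ : Fin k => Ioo (-(S : ℤ)) S).card : ℕ) : ℝ) *
        (2 * N / x + 1) := by rw [sum_const, nsmul_eq_mul]
    _ ≤ _ := by gcongr

theorem sum_Dp {Q : Finset ℕ} {a : Fin k → (p : ℕ) → ZMod p} {S N M : ℕ} {x : ℝ} (hx : 0 < x)
    (hQ : ∀ p ∈ Q, x ≤ p)
    (hM : ∀ σ : Fin k → ℤ, σ ≠ 0 → (∀ i, |σ i| < S) → ∀ h : ℤ, |h| < N →
      (Q.filter fun p => (h : ZMod p) = lin a σ p).card ≤ M) :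
    ((∑ p ∈ Q, ∑ q ∈ Q, (Dp a S N p q).card : ℕ) : ℝ) ≤
      Q.card * (M * ((2 * S : ℝ) ^ k * (2 * N / x + 1))) := by
  have h1 : ∀ p ∈ Q, ∑ q ∈ Q, (Dp a S N p q).card ≤ M * (Ep a S N p).card := by
    intro p _
    have e : ∑ q ∈ Q, (Dp a S N p q).card =
        ∑ v ∈ Ep a S N p, (Q.filter fun q => (v.2 : ZMod q) = lin a v.1 q).card := by
      simp_rw [card_filter _ Q]
      rw [sum_comm]
      refine sum_congr rfl fun q _ => ?_
      rw [← card_filter]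
      congr 1
      ext v
      rw [Dp, Ep, mem_filter, mem_filter, mem_filter]
      tauto
    rw [e, mul_comm, ← smul_eq_mul]
    refine sum_le_card_nsmul _ _ _ fun v hv => ?_
    rw [Ep, mem_filter, dbox, mem_filter, mem_product, Fintype.mem_piFinset, mem_Ioo] at hv
    refine hM v.1 hv.1.2 (fun i => ?_) v.2 (abs_lt.2 hv.1.1.2)
    have := hv.1.1.1 i
    rw [mem_Ioo] at this
    exact abs_lt.2 this
  calc ((∑ p ∈ Q, ∑ q ∈ Q, (Dp a S N p q).card : ℕ) : ℝ)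
      ≤ ((∑ p ∈ Q, M * (Ep a S N p).card : ℕ) : ℝ) := by exact_mod_cast sum_le_sum h1
    _ = ∑ p ∈ Q, (M : ℝ) * ((Ep a S N p).card : ℝ) := by push_cast; rfl
    _ ≤ ∑ p ∈ Q, (M : ℝ) * ((2 * S : ℝ) ^ k * (2 * N / x + 1)) := by
        refine sum_le_sum fun p hp => ?_
        have := Ep_card (a := a) (S := S) (N := N) hx (hQ p hp)
        gcongr
    _ = _ := by rw [sum_const, nsmul_eq_mul]

theorem R_sq (Q : Finset ℕ) (c : (p : ℕ) → ZMod p) (n : ℕ) :
    R Q c n ^ 2 = ∑ p ∈ Q, ∑ q ∈ Q,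
      if (n : ZMod p) = c p ∧ (n : ZMod q) = c q then 1 else 0 := by
  rw [sq, R, ← card_product, ← sum_product', ← card_filter]
  congr 1
  ext v
  simp only [mem_product, mem_filter]
  tauto

theorem second {Q : Finset ℕ} {b : (p : ℕ) → ZMod p} {a : Fin k → (p : ℕ) → ZMod p} {S N M : ℕ}
    {x : ℝ} (hx : 0 < x) (hQ : ∀ p ∈ Q, p.Prime ∧ x ≤ p) (hN : (N : ℝ) ≤ x ^ 2)
    (hM : ∀ σ : Fin k → ℤ, σ ≠ 0 → (∀ i, |σ i| < S) → ∀ h : ℤ, |h| < N →
      (Q.filter fun p => (h : ZMod p) = lin a σ p).card ≤ M) :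
    ((∑ s ∈ box k S, ∑ n ∈ Ioc 0 (0 + N), R Q (pen b a s) n ^ 2 : ℕ) : ℝ) ≤
      (S : ℝ) ^ k * (Q.card * (N / x + 1)) + (Q.card : ℝ) ^ 2 +
      Q.card * (M * ((2 * S : ℝ) ^ k * (2 * N / x + 1))) := by
  have h1 : ∑ s ∈ box k S, ∑ n ∈ Ioc 0 (0 + N), R Q (pen b a s) n ^ 2 =
      ∑ p ∈ Q, ∑ q ∈ Q, (Tp b a S N p q).card := by
    rw [← sum_product']
    simp_rw [R_sq, Tp, card_filter]
    rw [sum_comm]
    refine sum_congr rfl fun p _ => ?_
    rw [sum_comm]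
  have hdiag : ∀ p ∈ Q, ((Tp b a S N p p).card : ℝ) ≤ (S : ℝ) ^ k * (N / x + 1) := by
    intro p hp
    obtain ⟨hpp, hp1⟩ := hQ p hp
    have e : Tp b a S N p p ⊆ (box k S).biUnion fun s =>
        (cl (pen b a s) 0 N 1 1 p).image fun n => (s, n) := by
      intro v hv
      rw [Tp, mem_filter, mem_product] at hv
      rw [mem_biUnion]
      refine ⟨v.1, hv.1.1, mem_image.2 ⟨v.2, mem_filter.2 ⟨hv.1.2, ?_⟩, rfl⟩⟩
      rw [on_iff]
      exact hv.2.1
    have e2 : ∀ s, (((cl (pen b a s) 0 N 1 1 p).image fun n => (s, n)).card : ℝ) ≤ N / x + 1 := by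
      intro s
      have e3 := window_le (u := 0) (N := N) (r := p)
        (A := cl (pen b a s) 0 N 1 1 p) (filter_subset _ _)
        (fun n hn n' hn' => cl_modEq hpp (Nat.Prime.not_dvd_one hpp) hn hn')
      have e4 : (((cl (pen b a s) 0 N 1 1 p).image fun n => (s, n)).card : ℝ) ≤
          ((cl (pen b a s) 0 N 1 1 p).card : ℝ) := by exact_mod_cast card_image_le
      have : (N : ℝ) / p ≤ N / x := div_le_div_of_nonneg_left (Nat.cast_nonneg _) hx hp1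
      linarith
    calc ((Tp b a S N p p).card : ℝ)
        ≤ ((∑ s ∈ box k S, ((cl (pen b a s) 0 N 1 1 p).image fun n => (s, n)).card : ℕ) : ℝ) := by
          exact_mod_cast (card_le_card e).trans card_biUnion_le
      _ ≤ ∑ s ∈ box k S, ((N : ℝ) / x + 1) := by
          push_cast
          exact sum_le_sum fun s _ => e2 s
      _ = _ := by rw [sum_const, nsmul_eq_mul, card_box]; push_cast; rfl
  have hoff : ∀ p ∈ Q, ∀ q ∈ Q.erase p, ((Tp b a S N p q).card : ℝ) ≤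
      1 + ((Dp a S N p q).card : ℝ) := by
    intro p hp q hq
    have hq' := mem_of_mem_erase hq
    have h2 : N ≤ p * q := by
      have : (N : ℝ) ≤ p * q := by
        have := (hQ p hp).2
        have := (hQ q hq').2
        nlinarith
      exact_mod_cast this
    have := Tp_card (b := b) (a := a) (S := S) (hQ p hp).1 (hQ q hq').1 (ne_of_mem_erase hq).symm h2
    exact_mod_cast this
  have hD := sum_Dp (a := a) (S := S) (N := N) (M := M) hx (fun p hp => (hQ p hp).2) hM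
  rw [h1]
  push_cast at hD ⊢
  calc ∑ p ∈ Q, ∑ q ∈ Q, ((Tp b a S N p q).card : ℝ)
      ≤ ∑ p ∈ Q, ((S : ℝ) ^ k * (N / x + 1) + (Q.card + ∑ q ∈ Q, ((Dp a S N p q).card : ℝ))) := by
        refine sum_le_sum fun p hp => ?_
        rw [← add_sum_erase Q _ hp]
        refine add_le_add (hdiag p hp) ?_
        calc ∑ q ∈ Q.erase p, ((Tp b a S N p q).card : ℝ)
            ≤ ∑ q ∈ Q.erase p, (1 + ((Dp a S N p q).card : ℝ)) := sum_le_sum (hoff p hp)
          _ ≤ ∑ q ∈ Q, (1 + ((Dp a S N p q).card : ℝ)) :=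
            sum_le_sum_of_subset_of_nonneg (erase_subset _ _) fun _ _ _ => by positivity
          _ = _ := by rw [sum_add_distrib, sum_const, nsmul_eq_mul, mul_one]
    _ = (S : ℝ) ^ k * (Q.card * (N / x + 1)) + (Q.card : ℝ) ^ 2 +
        ∑ p ∈ Q, ∑ q ∈ Q, ((Dp a S N p q).card : ℝ) := by
        rw [sum_add_distrib, sum_add_distrib, sum_const, sum_const, nsmul_eq_mul, nsmul_eq_mul]
        ring
    _ ≤ _ := by linarith

/-- the number of bad parameters -/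
theorem bad {Q : Finset ℕ} {b : (p : ℕ) → ZMod p} {a : Fin k → (p : ℕ) → ZMod p} {S N M : ℕ}
    {x Y : ℝ} (hx : 0 < x) (hQ : ∀ p ∈ Q, p.Prime ∧ x ≤ p ∧ (p : ℝ) ≤ 2 * x)
    (hN4 : 4 * x ≤ N) (hN : (N : ℝ) ≤ x ^ 2)
    (hM : ∀ σ : Fin k → ℤ, σ ≠ 0 → (∀ i, |σ i| < S) → ∀ h : ℤ, |h| < N →
      (Q.filter fun p => (h : ZMod p) = lin a σ p).card ≤ M)
    {B : Finset (Fin k → ℕ)} (hB : B ⊆ box k S) (hY0 : 0 ≤ Y)
    (hY : ∀ s ∈ B, ((cov Q (pen b a s) N).card : ℝ) ≤ Y) :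
    (B.card : ℝ) * (Q.card * (N / (4 * x))) ^ 2 ≤
      Y * ((S : ℝ) ^ k * (Q.card * (N / x + 1)) + (Q.card : ℝ) ^ 2 +
      Q.card * (M * ((2 * S : ℝ) ^ k * (2 * N / x + 1)))) := by
  have hkey : ∀ s ∈ B, (Q.card * (N / (4 * x))) ^ 2 ≤
      Y * ((∑ n ∈ Ioc 0 (0 + N), R Q (pen b a s) n ^ 2 : ℕ) : ℝ) := by
    intro s hs
    have h1 := first (c := pen b a s) hx hQ hN4
    set F : ℕ → ℝ := fun n => (R Q (pen b a s) n : ℝ) with hF
    have h2 : ((∑ n ∈ Ioc 0 (0 + N), R Q (pen b a s) n : ℕ) : ℝ) =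
        ∑ n ∈ cov Q (pen b a s) N, F n := by
      push_cast
      rw [cov, sum_filter]
      refine sum_congr rfl fun n _ => ?_
      split_ifs with h
      · rfl
      · rw [Nat.cast_eq_zero, R, card_eq_zero, filter_eq_empty_iff]
        exact fun p hp ho => h ⟨p, hp, ho⟩
    have h3 : (∑ n ∈ cov Q (pen b a s) N, F n) ^ 2 ≤
        ((cov Q (pen b a s) N).card : ℝ) * ∑ n ∈ cov Q (pen b a s) N, F n ^ 2 :=
      sq_sum_le_card_mul_sum_sq
    have h5 : ∑ n ∈ cov Q (pen b a s) N, F n ^ 2 ≤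
        ((∑ n ∈ Ioc 0 (0 + N), R Q (pen b a s) n ^ 2 : ℕ) : ℝ) := by
      push_cast
      exact sum_le_sum_of_subset_of_nonneg (filter_subset _ _) fun _ _ _ => sq_nonneg _
    have h0 : (0 : ℝ) ≤ Q.card * (N / (4 * x)) := by positivity
    calc ((Q.card : ℝ) * (N / (4 * x))) ^ 2
        ≤ ((∑ n ∈ Ioc 0 (0 + N), R Q (pen b a s) n : ℕ) : ℝ) ^ 2 := pow_le_pow_left₀ h0 h1 2
      _ = (∑ n ∈ cov Q (pen b a s) N, F n) ^ 2 := by rw [h2]
      _ ≤ _ := h3
      _ ≤ Y * ((∑ n ∈ Ioc 0 (0 + N), R Q (pen b a s) n ^ 2 : ℕ) : ℝ) := by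
        have hs0 : 0 ≤ ∑ n ∈ cov Q (pen b a s) N, F n ^ 2 := sum_nonneg fun _ _ => sq_nonneg _
        exact mul_le_mul (hY s hs) h5 hs0 hY0
  have h6 : (B.card : ℝ) * (Q.card * (N / (4 * x))) ^ 2 ≤
      ∑ s ∈ B, Y * ((∑ n ∈ Ioc 0 (0 + N), R Q (pen b a s) n ^ 2 : ℕ) : ℝ) := by
    rw [← nsmul_eq_mul]
    exact card_nsmul_le_sum _ _ _ hkey
  refine h6.trans ?_
  rw [← mul_sum]
  refine mul_le_mul_of_nonneg_left ?_ hY0
  refine le_trans ?_ (second (b := b) (a := a) (S := S) (M := M) hx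
    (fun p hp => ⟨(hQ p hp).1, (hQ p hp).2.1⟩) hN hM)
  have h7 : ∑ s ∈ B, ∑ n ∈ Ioc 0 (0 + N), R Q (pen b a s) n ^ 2 ≤
      ∑ s ∈ box k S, ∑ n ∈ Ioc 0 (0 + N), R Q (pen b a s) n ^ 2 := sum_le_sum_of_subset hB
  exact_mod_cast h7

end Pool.Agent.Zk72.Pen
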