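import Pool.Agent.Zk72.Pen.Final

/-!
Integer directions: windows at the points of a proper generalised arithmetic progression.
-/

set_option autoImplicit false

namespace Pool.Agent.Zk72.Pen

open Finset Filter Topology
open Pool.Agent.H170R2.PC

/-- at most `(C + 2) / α` primes `p ≥ N ^ α` divide a nonzero integer below `N ^ (C + 2)` -/
theorem few_primes {α : ℝ} (hα : 1 / 2 ≤ α) {N C : ℕ} (hN : 2 ≤ N) {m : ℤ} (hm : m ≠ 0)
    (hm2 : |m| ≤ (N : ℤ) ^ C) {Q : Finset ℕ} (hQ : ∀ p ∈ Q, p.Prime ∧ (N : ℝ) ^ α ≤ p)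
    (hd : ∀ p ∈ Q, (p : ℤ) ∣ m) : Q.card ≤ 2 * C := by
  have hprod : (∏ p ∈ Q, p) ∣ m.natAbs :=
    prod_primes_dvd _ (fun p hp => (hQ p hp).1.prime) fun p hp => Int.natCast_dvd.1 (hd p hp)
  have h1 : (∏ p ∈ Q, p) ≤ N ^ C := by
    have h2 := Nat.le_of_dvd (Int.natAbs_pos.2 hm) hprod
    have h3 : m.natAbs ≤ N ^ C := by
      have : (m.natAbs : ℤ) ≤ (N : ℤ) ^ C := by rwa [Int.natCast_natAbs]
      exact_mod_cast this
    exact h2.trans h3
  have hN0 : (0 : ℝ) < N := by exact_mod_cast (by omega : 0 < N)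
  have hN1 : (1 : ℝ) < N := by exact_mod_cast (by omega : 1 < N)
  have h4 : ((N : ℝ) ^ α) ^ Q.card ≤ (N : ℝ) ^ C := by
    calc ((N : ℝ) ^ α) ^ Q.card = ∏ _p ∈ Q, (N : ℝ) ^ α := by rw [prod_const]
      _ ≤ ∏ p ∈ Q, (p : ℝ) := prod_le_prod (fun _ _ => by positivity) fun p hp => (hQ p hp).2
      _ = ((∏ p ∈ Q, p : ℕ) : ℝ) := by push_cast; rfl
      _ ≤ ((N ^ C : ℕ) : ℝ) := by exact_mod_cast h1
      _ = (N : ℝ) ^ C := by push_cast; rfl
  rw [← Real.rpow_natCast, ← Real.rpow_mul hN0.le, ← Real.rpow_natCast,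
    Real.rpow_le_rpow_left_iff hN1] at h4
  have h5 : (Q.card : ℝ) ≤ 2 * C := by
    have : (0 : ℝ) ≤ Q.card := Nat.cast_nonneg _
    nlinarith
  exact_mod_cast h5

/-- windows at the points of a generalised arithmetic progression -/
theorem windows {α : ℝ} (h0 : 1 / 2 ≤ α) (h1 : α < 1) (k C : ℕ) : ∃ N₀ : ℕ, ∀ N ≥ N₀, ∀
    (b : (p : ℕ) → ZMod p) (A : Fin k → ℤ) (S : ℕ), S ≤ N → (∀ i, |A i| ≤ (N : ℤ) ^ C) →
      (∀ σ : Fin k → ℤ, σ ≠ 0 → (∀ i, |σ i| < S) → (N : ℤ) ≤ |∑ i, σ i * A i|) →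
      ∀ Y : ℝ, 0 ≤ Y →
      (((box k S).filter fun s => (coveredCount α N (pen b (fun i p => (A i : ZMod p)) s) : ℝ) ≤
        Y).card : ℝ) ≤
        320 * 2 ^ k * (Y / N) * ((N : ℝ) ^ (2 * α - 1) +
          2 * (C + 2) * (S : ℝ) ^ k * Real.log N) := by
  obtain ⟨N₀, hN₀⟩ := main h0 h1
  refine ⟨max N₀ (k + 2), fun N hN b A S hS hA hsep Y hY => ?_⟩
  have hNk : k + 2 ≤ N := (le_max_right _ _).trans hN
  have h := hN₀ N ((le_max_left _ _).trans hN) k b (fun i p => (A i : ZMod p)) S (2 * (C + 2))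
    (by omega) (by
      intro σ hσ hσS h hh
      refine few_primes (α := α) h0 (N := N) (C := C + 2) (by omega) (m := h - ∑ i, σ i * A i)
        ?_ ?_ (fun p hp => ?_) fun p hp => ?_
      · intro h2
        have h3 := hsep σ hσ hσS
        rw [← sub_eq_zero.1 h2] at h3
        omega
      · have h2 : |∑ i, σ i * A i| ≤ k * ((N : ℤ) * (N : ℤ) ^ C) := by
          calc |∑ i, σ i * A i| ≤ ∑ i, |σ i * A i| := abs_sum_le_sum_abs _ _
            _ ≤ ∑ _i : Fin k, (N : ℤ) * (N : ℤ) ^ C := by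
              refine sum_le_sum fun i _ => ?_
              rw [abs_mul]
              have e1 : |σ i| ≤ (N : ℤ) := by
                have := hσS i
                omega
              exact mul_le_mul e1 (hA i) (abs_nonneg _) (by positivity)
            _ = _ := by rw [sum_const, card_univ, Fintype.card_fin, nsmul_eq_mul]
        have h3 : (N : ℤ) ≤ (N : ℤ) * (N : ℤ) ^ C := by
          have : (1 : ℤ) ≤ (N : ℤ) ^ C := one_le_pow₀ (by omega)
          nlinarith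
        calc |h - ∑ i, σ i * A i| ≤ |h| + |∑ i, σ i * A i| := abs_sub _ _
          _ ≤ (N : ℤ) * (N : ℤ) ^ C + k * ((N : ℤ) * (N : ℤ) ^ C) := by linarith
          _ = ((k : ℤ) + 1) * ((N : ℤ) * (N : ℤ) ^ C) := by ring
          _ ≤ (N : ℤ) * ((N : ℤ) * (N : ℤ) ^ C) := by
            have : ((k : ℤ) + 1) ≤ N := by omega
            gcongr
          _ = _ := by ring
      · have := PD_props p (mem_filter.1 hp).1
        exact ⟨this.1, this.2.1⟩
      · have := (mem_filter.1 hp).2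
        rw [← ZMod.intCast_zmod_eq_zero_iff_dvd]
        push_cast
        rw [this, lin, sub_self]) Y hY
  push_cast at h
  exact h

end Pool.Agent.Zk72.Pen
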